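import Pool.Agent.Helper49.RC.St

/-!
# Module KSD of project RC: duality for hexagons in a convex body
-/

open MeasureTheory Set Filter Metric

namespace Pool.Agent.Helper71.RC

open Helper97.CB Helper49.LT Helper49.RC

noncomputable section

/-- the real scalar product -/
def dt (z w : ℂ) : ℝ := z.re * w.re + z.im * w.im

theorem dt_eq (z w : ℂ) : (z * (starRingEnd ℂ) w).re = dt z w := by
  simp [dt]

theorem om_re : om.re = 1 / 2 := by
  unfold om; rw [ee_re, Real.cos_pi_div_three]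

theorem om_im : om.im = Real.sqrt 3 / 2 := by
  unfold om; rw [ee_im, Real.sin_pi_div_three]

def Xr (x : Fin 6 → ℂ) : ℝ := (1 / 6) * ((x 0).re - (x 3).re + (1 / 2) * ((x 1).re - (x 4).re)
  + (Real.sqrt 3 / 2) * ((x 1).im - (x 4).im) - (1 / 2) * ((x 2).re - (x 5).re)
  + (Real.sqrt 3 / 2) * ((x 2).im - (x 5).im))

def Xi (x : Fin 6 → ℂ) : ℝ := (1 / 6) * ((x 0).im - (x 3).im + (1 / 2) * ((x 1).im - (x 4).im)
  - (Real.sqrt 3 / 2) * ((x 1).re - (x 4).re) - (1 / 2) * ((x 2).im - (x 5).im)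
  - (Real.sqrt 3 / 2) * ((x 2).re - (x 5).re))

def Vr (x : Fin 6 → ℂ) : ℝ := (1 / 6) * ((x 0).re - (x 3).re + (1 / 2) * ((x 1).re - (x 4).re)
  - (Real.sqrt 3 / 2) * ((x 1).im - (x 4).im) - (1 / 2) * ((x 2).re - (x 5).re)
  - (Real.sqrt 3 / 2) * ((x 2).im - (x 5).im))

def Vi (x : Fin 6 → ℂ) : ℝ := (1 / 6) * ((x 0).im - (x 3).im + (1 / 2) * ((x 1).im - (x 4).im)
  + (Real.sqrt 3 / 2) * ((x 1).re - (x 4).re) - (1 / 2) * ((x 2).im - (x 5).im)
  + (Real.sqrt 3 / 2) * ((x 2).re - (x 5).re))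

theorem ar6_eq (x : Fin 6 → ℂ) (h : x 1 - x 2 + x 4 - x 5 = 0) :
    ar6 x = 3 * Real.sqrt 3 * (Xr x ^ 2 + Xi x ^ 2 - (Vr x ^ 2 + Vi x ^ 2)) := by
  have h5 : x 5 = x 1 - x 2 + x 4 := by linear_combination -h
  have hr : (x 5).re = (x 1).re - (x 2).re + (x 4).re := by rw [h5]; simp
  have hi : (x 5).im = (x 1).im - (x 2).im + (x 4).im := by rw [h5]; simp
  have h3 : Real.sqrt 3 * Real.sqrt 3 = 3 := Real.mul_self_sqrt (by norm_num)
  have e : Xr x ^ 2 + Xi x ^ 2 - (Vr x ^ 2 + Vi x ^ 2)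
      = (Real.sqrt 3 / 18) * (((x 0).re - (x 3).re + (1 / 2) * ((x 1).re - (x 4).re)
          - (1 / 2) * ((x 2).re - (x 5).re)) * (((x 1).im - (x 4).im) + ((x 2).im - (x 5).im))
        - ((x 0).im - (x 3).im + (1 / 2) * ((x 1).im - (x 4).im)
          - (1 / 2) * ((x 2).im - (x 5).im)) * (((x 1).re - (x 4).re) + ((x 2).re - (x 5).re))) := by
    unfold Xr Xi Vr Vi; ring
  rw [e]
  have e2 : 3 * Real.sqrt 3 * ((Real.sqrt 3 / 18) * (((x 0).re - (x 3).re
          + (1 / 2) * ((x 1).re - (x 4).re)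
          - (1 / 2) * ((x 2).re - (x 5).re)) * (((x 1).im - (x 4).im) + ((x 2).im - (x 5).im))
        - ((x 0).im - (x 3).im + (1 / 2) * ((x 1).im - (x 4).im)
          - (1 / 2) * ((x 2).im - (x 5).im)) * (((x 1).re - (x 4).re) + ((x 2).re - (x 5).re))))
      = (Real.sqrt 3 * Real.sqrt 3) / 6 * (((x 0).re - (x 3).re
          + (1 / 2) * ((x 1).re - (x 4).re)
          - (1 / 2) * ((x 2).re - (x 5).re)) * (((x 1).im - (x 4).im) + ((x 2).im - (x 5).im))
        - ((x 0).im - (x 3).im + (1 / 2) * ((x 1).im - (x 4).im)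
          - (1 / 2) * ((x 2).im - (x 5).im)) * (((x 1).re - (x 4).re) + ((x 2).re - (x 5).re))) := by
    ring
  rw [e2, h3]
  unfold ar6 cr
  rw [hr, hi]
  ring

/-- the functional of step (2) -/
def FF (er ei : ℝ) (x : Fin 6 → ℂ) : ℝ :=
  2 * (er * Xr x + ei * Xi x) - (Vr x ^ 2 + Vi x ^ 2)

theorem continuous_FF (er ei : ℝ) : Continuous (FF er ei) := by
  unfold FF Xr Xi Vr Vi
  have hre : ∀ k : Fin 6, Continuous fun x : Fin 6 → ℂ => (x k).re := fun k =>
    Complex.continuous_re.comp (continuous_apply k)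
  have him : ∀ k : Fin 6, Continuous fun x : Fin 6 → ℂ => (x k).im := fun k =>
    Complex.continuous_im.comp (continuous_apply k)
  fun_prop

theorem lim_aux {A B : ℝ} (hB : 0 ≤ B) (h : ∀ τ : ℝ, 0 < τ → τ ≤ 1 → A ≤ τ * B) : A ≤ 0 := by
  by_contra hA
  push Not at hA
  have h1 : 0 < A + B + 1 := by positivity
  have h2 := h (A / (A + B + 1)) (by positivity) (by rw [div_le_one h1]; linarith)
  have h3 : A / (A + B + 1) * B < A := by
    rw [div_mul_eq_mul_div, div_lt_iff₀ h1]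
    nlinarith
  linarith

/-- the six vectors -/
def Q0 (e V : ℂ) : ℂ := e - V
def Q1 (e V : ℂ) : ℂ := e * om - (starRingEnd ℂ) om * V
def Q2 (e V : ℂ) : ℂ := e * om ^ 2 - (starRingEnd ℂ) om ^ 2 * V

def SS (e V : ℂ) (x : Fin 6 → ℂ) : ℝ :=
  dt (x 0) (Q0 e V) + dt (x 1) (Q1 e V) + dt (x 2) (Q2 e V)
    - dt (x 3) (Q0 e V) - dt (x 4) (Q1 e V) - dt (x 5) (Q2 e V)

theorem SS_eq (e V : ℂ) (x : Fin 6 → ℂ) :
    SS e V x = 6 * (e.re * Xr x + e.im * Xi x) - 6 * (V.re * Vr x + V.im * Vi x) := by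
  have h3 : Real.sqrt 3 * Real.sqrt 3 = 3 := Real.mul_self_sqrt (by norm_num)
  have a1 : (Q1 e V).re = e.re * (1 / 2) - e.im * (Real.sqrt 3 / 2)
      - ((1 / 2) * V.re + (Real.sqrt 3 / 2) * V.im) := by
    simp [Q1, om_re, om_im]
  have a2 : (Q1 e V).im = e.re * (Real.sqrt 3 / 2) + e.im * (1 / 2)
      - ((1 / 2) * V.im - (Real.sqrt 3 / 2) * V.re) := by
    simp [Q1, om_re, om_im]; ring
  have o2r : (om ^ 2).re = -(1 / 2) := by
    rw [pow_two, Complex.mul_re, om_re, om_im]; linear_combination (-1 / 4 : ℝ) * h3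
  have o2i : (om ^ 2).im = Real.sqrt 3 / 2 := by
    rw [pow_two, Complex.mul_im, om_re, om_im]; ring
  have a3 : (Q2 e V).re = e.re * (-(1 / 2)) - e.im * (Real.sqrt 3 / 2)
      - (-(1 / 2) * V.re + (Real.sqrt 3 / 2) * V.im) := by
    simp only [Q2, ← map_pow, Complex.sub_re, Complex.mul_re, Complex.conj_re, Complex.conj_im,
      o2r, o2i]
    ring
  have a4 : (Q2 e V).im = e.re * (Real.sqrt 3 / 2) + e.im * (-(1 / 2))
      - (-(1 / 2) * V.im - (Real.sqrt 3 / 2) * V.re) := by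
    simp only [Q2, ← map_pow, Complex.sub_im, Complex.mul_im, Complex.conj_re, Complex.conj_im,
      o2r, o2i]
    ring
  have a5 : (Q0 e V).re = e.re - V.re := by simp [Q0]
  have a6 : (Q0 e V).im = e.im - V.im := by simp [Q0]
  unfold SS dt Xr Xi Vr Vi
  rw [a1, a2, a3, a4, a5, a6]
  ring

theorem sp_attain {K : Set ℂ} (hK : IsCompact K) (hne : K.Nonempty) (p : ℂ) :
    ∃ y ∈ K, sp K p = dt y p := by
  obtain ⟨y, hy, h⟩ := hK.exists_sSup_image_eq hne
    (f := fun z : ℂ => (z * (starRingEnd ℂ) p).re) (by fun_prop)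
  exact ⟨y, hy, by unfold sp; rw [h, dt_eq]⟩

theorem hKSD : StKsd := by
  intro K M hK hM t ε hε
  obtain ⟨hconv, hcomp, hint⟩ := hK
  obtain ⟨x0, hx0⟩ := hint
  have hx0K : x0 ∈ K := interior_subset hx0
  have hne : K.Nonempty := ⟨x0, hx0K⟩
  set e : ℂ := ee t with he
  have hee : e * (starRingEnd ℂ) e = 1 := ee_mul_conj t
  have hen : e.re ^ 2 + e.im ^ 2 = 1 := by
    rw [he, ee_re, ee_im]; exact Real.cos_sq_add_sin_sq t
  -- the compact sets
  set Kp : Set (Fin 6 → ℂ) := Set.pi Set.univ (fun _ => K) with hKp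
  have hKpc : IsCompact Kp := isCompact_univ_pi fun _ => hcomp
  have hKpv : Convex ℝ Kp := convex_pi fun _ _ => hconv
  have hclosed : IsClosed {x : Fin 6 → ℂ | x 1 - x 2 + x 4 - x 5 = 0} :=
    isClosed_eq (by fun_prop) continuous_const
  have hCc : IsCompact (Kp ∩ {x : Fin 6 → ℂ | x 1 - x 2 + x 4 - x 5 = 0}) :=
    hKpc.inter_right hclosed
  have hcst : (fun _ : Fin 6 => x0) ∈ Kp ∩ {x : Fin 6 → ℂ | x 1 - x 2 + x 4 - x 5 = 0} :=
    ⟨fun _ _ => hx0K, by simp⟩
  obtain ⟨xs, hxs, hmax⟩ := hCc.exists_isMaxOn ⟨_, hcst⟩ (continuous_FF e.re e.im).continuousOn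
  set V : ℂ := ⟨Vr xs, Vi xs⟩ with hV
  -- the value of the maximum
  have hF : FF e.re e.im xs ≤ 1 + M := by
    have h1 := hM xs (fun k => hxs.1 k (Set.mem_univ _)) hxs.2
    rw [ar6_eq xs hxs.2] at h1
    have h3 : 0 < 3 * Real.sqrt 3 := by positivity
    have h2 : Xr xs ^ 2 + Xi xs ^ 2 - (Vr xs ^ 2 + Vi xs ^ 2) ≤ M := le_of_mul_le_mul_left h1 h3
    unfold FF
    nlinarith [sq_nonneg (e.re - Xr xs), sq_nonneg (e.im - Xi xs)]
  -- the first order condition
  have hfo : ∀ x ∈ Kp, x 1 - x 2 + x 4 - x 5 = 0 →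
      2 * (e.re * Xr x + e.im * Xi x) - 2 * (Vr xs * Vr x + Vi xs * Vi x)
        ≤ FF e.re e.im xs - (Vr xs ^ 2 + Vi xs ^ 2) := by
    intro x hx hxl
    have key : 2 * (e.re * Xr x + e.im * Xi x) - 2 * (Vr xs * Vr x + Vi xs * Vi x)
        - (FF e.re e.im xs - (Vr xs ^ 2 + Vi xs ^ 2)) ≤ 0 := by
      refine lim_aux (B := (Vr x - Vr xs) ^ 2 + (Vi x - Vi xs) ^ 2) (by positivity) ?_
      intro τ h0 h1
      have hmem : (fun k => xs k + τ • (x k - xs k)) ∈
          Kp ∩ {x : Fin 6 → ℂ | x 1 - x 2 + x 4 - x 5 = 0} := by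
        refine ⟨fun k _ => hconv.add_smul_sub_mem (hxs.1 k (Set.mem_univ _))
          (hx k (Set.mem_univ _)) ⟨h0.le, h1⟩, ?_⟩
        have e1 : xs 1 - xs 2 + xs 4 - xs 5 = 0 := hxs.2
        simp only [Set.mem_setOf_eq, Complex.real_smul]
        linear_combination (1 - (τ : ℂ)) * e1 + (τ : ℂ) * hxl
      have h2 := hmax hmem
      simp only [Set.mem_setOf_eq] at h2
      have e1 : Xr (fun k => xs k + τ • (x k - xs k)) = Xr xs + τ * (Xr x - Xr xs) := by
        unfold Xr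
        simp only [Complex.add_re, Complex.add_im, Complex.real_smul, Complex.re_ofReal_mul,
          Complex.im_ofReal_mul, Complex.sub_re, Complex.sub_im]
        ring
      have e2 : Xi (fun k => xs k + τ • (x k - xs k)) = Xi xs + τ * (Xi x - Xi xs) := by
        unfold Xi
        simp only [Complex.add_re, Complex.add_im, Complex.real_smul, Complex.re_ofReal_mul,
          Complex.im_ofReal_mul, Complex.sub_re, Complex.sub_im]
        ring
      have e3 : Vr (fun k => xs k + τ • (x k - xs k)) = Vr xs + τ * (Vr x - Vr xs) := by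
        unfold Vr
        simp only [Complex.add_re, Complex.add_im, Complex.real_smul, Complex.re_ofReal_mul,
          Complex.im_ofReal_mul, Complex.sub_re, Complex.sub_im]
        ring
      have e4 : Vi (fun k => xs k + τ • (x k - xs k)) = Vi xs + τ * (Vi x - Vi xs) := by
        unfold Vi
        simp only [Complex.add_re, Complex.add_im, Complex.real_smul, Complex.re_ofReal_mul,
          Complex.im_ofReal_mul, Complex.sub_re, Complex.sub_im]
        ring
      unfold FF at h2 ⊢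
      rw [e1, e2, e3, e4] at h2
      have h5 : τ * (2 * (e.re * Xr x + e.im * Xi x) - 2 * (Vr xs * Vr x + Vi xs * Vi x)
          - (2 * (e.re * Xr xs + e.im * Xi xs) - (Vr xs ^ 2 + Vi xs ^ 2)
            - (Vr xs ^ 2 + Vi xs ^ 2)))
          ≤ τ * (τ * ((Vr x - Vr xs) ^ 2 + (Vi x - Vi xs) ^ 2)) := by
        nlinarith [h2]
      exact le_of_mul_le_mul_left h5 h0
    linarith
  set G : ℝ := 3 * (FF e.re e.im xs - (Vr xs ^ 2 + Vi xs ^ 2)) with hG
  have hSG : ∀ x ∈ Kp, x 1 - x 2 + x 4 - x 5 = 0 → SS e V x ≤ G := by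
    intro x hx hxl
    rw [SS_eq]
    have h1 := hfo x hx hxl
    simp only [hV, hG]
    linarith
  have hS0 : SS e V (fun _ => x0) = 0 := by
    unfold SS; ring
  have hG0 : 0 ≤ G := by
    have h1 := hSG _ hcst.1 hcst.2
    rw [hS0] at h1
    exact h1
  -- separation
  set φ : (Fin 6 → ℂ) → ℂ × ℝ := fun x => (x 1 - x 2 + x 4 - x 5, SS e V x) with hφ
  have hSlin : IsLinearMap ℝ φ := by
    constructor
    · intro x y
      simp only [hφ, Prod.mk_add_mk, Prod.mk.injEq, Pi.add_apply]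
      refine ⟨by ring, ?_⟩
      unfold SS dt
      simp only [Pi.add_apply, Complex.add_re, Complex.add_im]
      ring
    · intro c x
      simp only [hφ, Prod.smul_mk, Prod.mk.injEq, Pi.smul_apply]
      refine ⟨?_, ?_⟩
      · simp only [Complex.real_smul]; ring
      · unfold SS dt
        simp only [Pi.smul_apply, Complex.real_smul, Complex.re_ofReal_mul,
          Complex.im_ofReal_mul, smul_eq_mul]
        ring
  have hφc : Continuous φ := by
    have hre : ∀ k : Fin 6, Continuous fun x : Fin 6 → ℂ => (x k).re := fun k =>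
      Complex.continuous_re.comp (continuous_apply k)
    have him : ∀ k : Fin 6, Continuous fun x : Fin 6 → ℂ => (x k).im := fun k =>
      Complex.continuous_im.comp (continuous_apply k)
    simp only [hφ]
    unfold SS dt
    fun_prop
  have hCconv : Convex ℝ (φ '' Kp) := hKpv.is_linear_image hSlin
  have hCcl : IsClosed (φ '' Kp) := (hKpc.image hφc).isClosed
  have hnot : ((0 : ℂ), G + ε) ∉ φ '' Kp := by
    rintro ⟨x, hx, hxe⟩
    simp only [hφ, Prod.mk.injEq] at hxe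
    have := hSG x hx hxe.1
    linarith [hxe.2]
  obtain ⟨f, u, hfu, hux⟩ := geometric_hahn_banach_closed_point hCconv hCcl hnot
  set l : ℝ := f ((0 : ℂ), (1 : ℝ)) with hl
  set v' : ℂ := ⟨f ((1 : ℂ), (0 : ℝ)), f (Complex.I, (0 : ℝ))⟩ with hv'
  have hf : ∀ (z : ℂ) (r : ℝ), f (z, r) = dt v' z + l * r := by
    intro z r
    have e1 : ((z, r) : ℂ × ℝ) = z.re • ((1 : ℂ), (0 : ℝ)) + z.im • (Complex.I, (0 : ℝ))
        + r • ((0 : ℂ), (1 : ℝ)) := by
      refine Prod.ext ?_ ?_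
      · apply Complex.ext <;> simp
      · simp
    rw [e1, map_add, map_add, map_smul, map_smul, map_smul]
    simp only [smul_eq_mul, dt, hv', hl]
    ring
  have hu0 : 0 < u := by
    have h1 := hfu _ ⟨_, hcst.1, rfl⟩
    simp only [hφ] at h1
    rw [hf, hS0] at h1
    simp [dt] at h1
    exact h1
  have hlG : u < l * (G + ε) := by
    rw [hf] at hux
    simp [dt] at hux
    exact hux
  have hGε : 0 < G + ε := by linarith
  have hl0 : 0 < l := by
    by_contra h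
    push Not at h
    have := mul_nonpos_of_nonpos_of_nonneg h hGε.le
    linarith
  set v : ℂ := (l⁻¹ : ℝ) • v' with hv
  have hmain : ∀ x ∈ Kp, SS e V x + dt v (x 1 - x 2 + x 4 - x 5) ≤ G + ε := by
    intro x hx
    have h1 := (hfu _ ⟨x, hx, rfl⟩).trans hlG
    simp only [hφ] at h1
    rw [hf] at h1
    have e1 : dt v (x 1 - x 2 + x 4 - x 5) = l⁻¹ * dt v' (x 1 - x 2 + x 4 - x 5) := by
      simp only [hv, dt, Complex.real_smul, Complex.re_ofReal_mul, Complex.im_ofReal_mul]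
      ring
    rw [e1]
    have h2 : l * (SS e V x + l⁻¹ * dt v' (x 1 - x 2 + x 4 - x 5)) ≤ l * (G + ε) := by
      have e2 : l * (SS e V x + l⁻¹ * dt v' (x 1 - x 2 + x 4 - x 5))
          = dt v' (x 1 - x 2 + x 4 - x 5) + l * SS e V x := by
        field_simp
        ring
      rw [e2]; exact h1.le
    exact le_of_mul_le_mul_left h2 hl0
  -- the supremum
  obtain ⟨y0, hy0, s0⟩ := sp_attain hcomp hne (Q0 e V)
  obtain ⟨y1, hy1, s1⟩ := sp_attain hcomp hne (Q1 e V + v)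
  obtain ⟨y2, hy2, s2⟩ := sp_attain hcomp hne (Q2 e V - v)
  obtain ⟨y3, hy3, s3⟩ := sp_attain hcomp hne (-(Q0 e V))
  obtain ⟨y4, hy4, s4⟩ := sp_attain hcomp hne (-(Q1 e V) + v)
  obtain ⟨y5, hy5, s5⟩ := sp_attain hcomp hne (-(Q2 e V) - v)
  have hsum : sp K (Q0 e V) + sp K (Q1 e V + v) + sp K (Q2 e V - v) + sp K (-(Q0 e V))
      + sp K (-(Q1 e V) + v) + sp K (-(Q2 e V) - v) ≤ G + ε := by
    have h1 := hmain ![y0, y1, y2, y3, y4, y5] (by
      intro k _
      fin_cases k <;> simp [hy0, hy1, hy2, hy3, hy4, hy5])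
    rw [s0, s1, s2, s3, s4, s5]
    refine le_trans (le_of_eq ?_) h1
    unfold SS dt
    simp
    ring
  refine ⟨-(starRingEnd ℂ) e * V, (starRingEnd ℂ) e * v, ?_⟩
  have c0 : e * f0 (-(starRingEnd ℂ) e * V) = Q0 e V := by
    unfold f0 Q0; linear_combination (-V) * hee
  have c1 : e * f1 (-(starRingEnd ℂ) e * V) ((starRingEnd ℂ) e * v) = Q1 e V + v := by
    unfold f1 Q1; linear_combination (v - (starRingEnd ℂ) om * V) * hee
  have c2 : e * f2 (-(starRingEnd ℂ) e * V) ((starRingEnd ℂ) e * v) = Q2 e V - v := by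
    unfold f2 Q2; linear_combination (-v - (starRingEnd ℂ) om ^ 2 * V) * hee
  have c4 : -(e * f1 (-(starRingEnd ℂ) e * V) (-((starRingEnd ℂ) e * v))) = -(Q1 e V) + v := by
    unfold f1 Q1; linear_combination (v + (starRingEnd ℂ) om * V) * hee
  have c5 : -(e * f2 (-(starRingEnd ℂ) e * V) (-((starRingEnd ℂ) e * v))) = -(Q2 e V) - v := by
    unfold f2 Q2; linear_combination (-v + (starRingEnd ℂ) om ^ 2 * V) * hee
  have cn : ‖-(starRingEnd ℂ) e * V‖ ^ 2 = Vr xs ^ 2 + Vi xs ^ 2 := by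
    rw [norm_mul, norm_neg, RCLike.norm_conj, he, norm_ee, one_mul, ← Complex.normSq_eq_norm_sq,
      Complex.normSq_apply]
    simp only [hV]; ring
  unfold Psi
  rw [← he, c0, c1, c2, c4, c5, cn]
  have : FF e.re e.im xs ≤ 1 + M := hF
  linarith [hsum, hG]

end

end Pool.Agent.Helper71.RC
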